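import Pool.Agent.H15.TG.Targets

set_option autoImplicit false

namespace Pool.Agent.H13.TG

open MvPolynomial Pool.Agent.H2.ST Pool.Agent.H15.TG

/-- the bracket with an element of a Poisson subalgebra, as a derivation of the subalgebra -/
noncomputable def dK {k : Type} [Field k] {m : ℕ} (K : Subalgebra k (Pol k m))
    (bk : ∀ a ∈ K, ∀ b ∈ K, br a b ∈ K) (p : Pol k m) (hp : p ∈ K) : Derivation k K K :=
  Derivation.mk'
    { toFun := fun a => ⟨br p a.1, bk p hp a.1 a.2⟩
      map_add' := fun a b => Subtype.ext (br_add p a.1 b.1)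
      map_smul' := fun c a => Subtype.ext (br_smul c p a.1) }
    (fun a b => Subtype.ext (br_mul p a.1 b.1))

theorem dK_coe {k : Type} [Field k] {m : ℕ} (K : Subalgebra k (Pol k m))
    (bk : ∀ a ∈ K, ∀ b ∈ K, br a b ∈ K) (p : Pol k m) (hp : p ∈ K) (a : K) :
    ((dK K bk p hp a : K) : Pol k m) = br p a := rfl

theorem dK_iter {k : Type} [Field k] {m : ℕ} (K : Subalgebra k (Pol k m))
    (bk : ∀ a ∈ K, ∀ b ∈ K, br a b ∈ K) (p : Pol k m) (hp : p ∈ K) (n : ℕ) (a : K) :
    (((dK K bk p hp)^[n] a : K) : Pol k m) = (br p)^[n] a := by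
  induction n generalizing a with
  | zero => rfl
  | succ n ih =>
    rw [Function.iterate_succ_apply, Function.iterate_succ_apply, ih, dK_coe]

theorem pf_GNK (hPNL : T_PNL) (hPCN : T_PCN) (hPPC : T_PPC) (hMSL : T_MSL) : T_GNK := by
  intro k _ _ _ m d W K H f π ψ a c0 h R hR hbr g hg
  have hπ : ∀ i, π i ∈ K := fun i => (mem_Cf.1 (h.hp i)).1
  have key := hMSL k K (Fin (d + 1)) (fun i => dK K h.bk (π i) (hπ i))
    (fun i => ⟨R i, hR i⟩)
    (by
      intro i j x
      apply Subtype.ext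
      rw [dK_coe, dK_coe, dK_coe, dK_coe, jac, hPPC k m d W K H f π ψ a c0 h i j, zero_br,
        zero_add])
    (by
      intro i x
      obtain ⟨n, hn⟩ := hPNL k m d W K H f π ψ a c0 h i x.1 x.2
      refine ⟨n, ?_⟩
      apply Subtype.ext
      rw [dK_iter, hn]
      rfl)
    (by
      intro i j
      apply Subtype.ext
      rw [dK_coe]
      show br (π i) (R j) = _
      rw [hbr i j]
      split_ifs <;> rfl)
    ⟨g, hg⟩
  have h2 : g ∈ (Algebra.adjoin k ({x : K | ∀ i, dK K h.bk (π i) (hπ i) x = 0} ∪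
      Set.range fun i => (⟨R i, hR i⟩ : K))).map K.val := ⟨⟨g, hg⟩, key, rfl⟩
  rw [AlgHom.map_adjoin] at h2
  refine Algebra.adjoin_le ?_ h2
  rintro _ ⟨x, hx | ⟨i, rfl⟩, rfl⟩
  · have h3 : (x : Pol k m) ∈ Kp π := by
      apply hPCN k m d W K H f π ψ a c0 h x.1 x.2
      intro i
      have := congrArg Subtype.val (hx i)
      rw [dK_coe] at this
      exact this
    refine Algebra.adjoin_mono ?_ h3
    rintro _ ⟨i, rfl⟩
    exact ⟨Sum.inl i, rfl⟩
  · exact Algebra.subset_adjoin ⟨Sum.inr i, rfl⟩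

end Pool.Agent.H13.TG
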